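import Mathlib
import Pool.Agent.helper81.DI.SpecC

/-!
# Project di (MP_baa4d7_al): C5a
-/

set_option autoImplicit false

namespace Pool.Agent.DI

open Pool.Agent.helper58.DC

theorem C5a_cc {Γ : Type} [Group Γ] (L : Subgroup Γ) (ψ z : Γ → ℂ)
    (h : ∀ g, g ∉ L → ψ g = 0) :
    cc (fun x : L => ψ (x : Γ)) (fun x : L => z (x : Γ)) = cc ψ z := by
  unfold cc
  congr 1
  have h1 : ∑ᶠ x : L, z (x : Γ) * ψ (x : Γ) = ∑ᶠ x ∈ (L : Set Γ), z x * ψ x :=
    finsum_set_coe_eq_finsum_mem (s := (L : Set Γ)) (f := fun x => z x * ψ x)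
  rw [h1, finsum_mem_def]
  apply finsum_congr
  intro x
  by_cases hx : x ∈ (L : Set Γ)
  · rw [Set.indicator_of_mem hx]
  · rw [Set.indicator_of_notMem hx, h x hx, mul_zero]

theorem C5a (hC5 : C5_stmt) : C5a_stmt := by
  intro Γ _ _ p _ M hM hp P L hPL hL hPp ψ hψ z hz hzi hz0
  rw [← C5a_cc L ψ z hψ.1]
  have hn : (P.subgroupOf L).Normal := by
    rw [Subgroup.normal_subgroupOf_iff_le_normalizer hPL]
    exact hL
  have hp' : IsPGroup p (P.subgroupOf L) :=
    hPp.of_injective (Subgroup.subgroupOfEquivOfLe hPL).toMonoidHom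
      (Subgroup.subgroupOfEquivOfLe hPL).injective
  refine hC5 L p M hM hp (P.subgroupOf L) hn hp' (fun x : L => ψ (x : Γ)) hψ.2
    (fun x : L => z (x : Γ)) ⟨?_, ?_⟩ ?_
  · intro x y
    exact hz y y.2 x
  · intro x
    exact hzi x
  · intro x hx
    apply hz0
    rw [Subgroup.mem_centralizer_iff]
    intro h hh
    rw [Subgroup.mem_centralizer_iff] at hx
    have := hx ⟨h, hPL hh⟩ (by
      show (⟨h, hPL hh⟩ : L) ∈ P.subgroupOf L
      rw [Subgroup.mem_subgroupOf]
      exact hh)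
    exact congrArg Subtype.val this

end Pool.Agent.DI
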